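import Pool.Agent.U401.Inv

/-!
# No lonely colour graphs of every chromatic number

For every `m` there is a finite graph of chromatic number `m` with an edge colouring such that every
vertex meets at most one edge of each colour, and every edge of every circuit has the same colour as
some other edge of the circuit. There is also such a countably infinite graph of infinite chromatic
number. So neither the no lonely colour graphs nor the no pied circuit graphs have bounded chromatic
number.

The graphs are induced subgraphs of Cayley graphs of finite groups with respect to irreducible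
generating sets which consist of involutions (`Pool.Agent.U401.Inv.main`).
-/

set_option autoImplicit false

namespace Pool.Agent.Results.MP_2f2576_co.EveryChromaticNumber

open Pool.Agent.Results.MP_696765_co.IrreducibleUnbounded

/-- Condition (i), with a parameter: every vertex of `X` meets at most `r` edges of each colour of
the edge colouring `c` (only the values of `c` on the edges of `X` matter). -/
def MeetsAtMost {V κ : Type*} (X : SimpleGraph V) (c : Sym2 V → κ) (r : ℕ∞) : Prop :=
  ∀ (v : V) (k : κ), {w : V | X.Adj v w ∧ c s(v, w) = k}.encard ≤ r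

/-- Condition (ii): in every circuit at least two edges have the same colour. -/
def NoPiedCircuit {V κ : Type*} (X : SimpleGraph V) (c : Sym2 V → κ) : Prop :=
  ∀ (v : V) (p : X.Walk v v), p.IsCycle →
    ∃ e ∈ p.edges, ∃ e' ∈ p.edges, e' ≠ e ∧ c e' = c e

/-- Condition (iii): in every circuit each edge has the same colour as some other edge of that
circuit. -/
def NoLonelyColour {V κ : Type*} (X : SimpleGraph V) (c : Sym2 V → κ) : Prop :=
  ∀ (v : V) (p : X.Walk v v), p.IsCycle →
    ∀ e ∈ p.edges, ∃ e' ∈ p.edges, e' ≠ e ∧ c e' = c e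

/-- `X` is a no pied circuit graph. -/
def IsNoPiedCircuitGraph {V : Type*} (X : SimpleGraph V) : Prop :=
  ∃ (κ : Type) (c : Sym2 V → κ), MeetsAtMost X c 2 ∧ NoPiedCircuit X c

/-- `X` is a no lonely colour graph. -/
def IsNoLonelyColourGraph {V : Type*} (X : SimpleGraph V) : Prop :=
  ∃ (κ : Type) (c : Sym2 V → κ), MeetsAtMost X c 2 ∧ NoLonelyColour X c

/-- The edges whose colour is not the colour of `e`. -/
def others {V κ : Type*} (X : SimpleGraph V) (c : Sym2 V → κ) (e : Sym2 V) : SimpleGraph V where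
  Adj u v := X.Adj u v ∧ c s(u, v) ≠ c e
  symm := ⟨fun u v h => ⟨h.1.symm, by rw [Sym2.eq_swap]; exact h.2⟩⟩
  loopless := ⟨fun u h => h.1.ne rfl⟩

/-- The edges whose colour is not the colour of `e`, and `e` itself. -/
def othersAnd {V κ : Type*} (X : SimpleGraph V) (c : Sym2 V → κ) (e : Sym2 V) :
    SimpleGraph V where
  Adj u v := X.Adj u v ∧ (c s(u, v) ≠ c e ∨ s(u, v) = e)
  symm := ⟨fun u v h => ⟨h.1.symm, by rw [Sym2.eq_swap]; exact h.2⟩⟩
  loopless := ⟨fun u h => h.1.ne rfl⟩

/-- If no edge `x y` can be replaced by a path whose edges have other colours than `x y`, then (iii)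
holds. -/
theorem noLonelyColour_of {V κ : Type*} (X : SimpleGraph V) (c : Sym2 V → κ)
    (h : ∀ x y, X.Adj x y → ¬ (others X c s(x, y)).Reachable x y) : NoLonelyColour X c := by
  intro v p hp e he
  by_contra hcon
  push Not at hcon
  induction e using Sym2.ind with
  | _ x y =>
    have hxy : X.Adj x y := p.edges_subset_edgeSet he
    -- the cycle lies in the smaller graph
    have hsub : ∀ e' ∈ p.edges, e' ∈ (othersAnd X c s(x, y)).edgeSet := by
      intro e' he'
      have h1 := p.edges_subset_edgeSet he'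
      by_cases h2 : e' = s(x, y)
      · subst h2
        exact ⟨hxy, Or.inr rfl⟩
      · have h3 := hcon e' he' h2
        induction e' using Sym2.ind with
        | _ a b => exact ⟨h1, Or.inl h3⟩
    have hc : (p.transfer (othersAnd X c s(x, y)) hsub).IsCycle := hp.transfer hsub
    have hmem : s(x, y) ∈ (p.transfer (othersAnd X c s(x, y)) hsub).edges := by
      rw [SimpleGraph.Walk.edges_transfer]
      exact he
    have hb : ¬ (othersAnd X c s(x, y)).IsBridge s(x, y) := fun hb =>
      hb.notMem_edges_of_isCycle hc hmem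
    rw [SimpleGraph.isBridge_iff] at hb
    apply hb
    intro hr
    refine h x y hxy (hr.mono ?_)
    intro a b hab
    rw [SimpleGraph.deleteEdges_adj] at hab
    obtain ⟨⟨h1, h2⟩, h3⟩ := hab
    exact ⟨h1, h2.resolve_right fun h4 => h3 h4⟩

/-- (iii) implies (ii) -/
theorem NoLonelyColour.noPied {V κ : Type*} {X : SimpleGraph V} {c : Sym2 V → κ}
    (h : NoLonelyColour X c) : NoPiedCircuit X c := by
  intro v p hp
  have hne : p.edges ≠ [] := by
    intro h0
    have h1 := hp.three_le_length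
    rw [← SimpleGraph.Walk.length_edges, h0] at h1
    simp at h1
  obtain ⟨e, he⟩ := List.exists_mem_of_ne_nil _ hne
  obtain ⟨e', he', h2⟩ := h v p hp e he
  exact ⟨e, he, e', he', h2⟩

/-- Induced subgraphs inherit (iii). -/
theorem NoLonelyColour.induce {V κ : Type*} {X : SimpleGraph V} {c : Sym2 V → κ}
    (h : NoLonelyColour X c) (s : Set V) :
    NoLonelyColour (X.induce s) (fun e => c (e.map Subtype.val)) := by
  intro v p hp e he
  let f : X.induce s →g X := (SimpleGraph.Embedding.induce s).toHom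
  have hf : Function.Injective f := Subtype.val_injective
  have h1 := h (f v) (p.map f) (hp.map hf) (e.map f)
    (by rw [SimpleGraph.Walk.edges_map]; exact List.mem_map_of_mem he)
  obtain ⟨e', he', hne, hc⟩ := h1
  rw [SimpleGraph.Walk.edges_map] at he'
  obtain ⟨e'', he'', rfl⟩ := List.mem_map.1 he'
  exact ⟨e'', he'', fun h2 => hne (by rw [h2]), hc⟩

/-- Induced subgraphs inherit (i). -/
theorem MeetsAtMost.induce {V κ : Type*} {X : SimpleGraph V} {c : Sym2 V → κ} {r : ℕ∞}
    (h : MeetsAtMost X c r) (s : Set V) :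
    MeetsAtMost (X.induce s) (fun e => c (e.map Subtype.val)) r := by
  intro v k
  refine le_trans ?_ (h v.1 k)
  rw [← Subtype.val_injective.encard_image]
  apply Set.encard_le_encard
  rintro _ ⟨w, ⟨h1, h2⟩, rfl⟩
  exact ⟨h1, h2⟩

/-! ### The universal graph -/

section Universal

variable {I : Type} (G : I → Type) [∀ i, Group (G i)] (H : ∀ i, Set (G i))

/-- The disjoint union of the Cayley graphs. -/
def univG : SimpleGraph (Σ i, G i) where
  Adj p q := ∃ (i : I) (g g' : G i), p = ⟨i, g⟩ ∧ q = ⟨i, g'⟩ ∧ (CayleyGraph (H i)).Adj g g'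
  symm := ⟨by
    rintro p q ⟨i, g, g', h1, h2, h3⟩
    exact ⟨i, g', g, h2, h1, h3.symm⟩⟩
  loopless := ⟨by
    rintro p ⟨i, g, g', h1, h2, h3⟩
    rw [h1] at h2
    exact h3.ne (eq_of_heq (Sigma.mk.inj h2).2)⟩

/-- The colour of the edge `{g, g'}`: the set of the two quotients `g' g⁻¹` and `g g'⁻¹`. -/
def univC (e : Sym2 (Σ i, G i)) : Set (Σ i, G i) :=
  {r | ∃ (i : I) (g g' : G i), e = s(⟨i, g⟩, ⟨i, g'⟩) ∧ r = ⟨i, g' * g⁻¹⟩}

theorem mem_univC (i : I) (g g' : G i) (r : Σ i, G i) :
    r ∈ univC G s(⟨i, g⟩, ⟨i, g'⟩) ↔ r = ⟨i, g' * g⁻¹⟩ ∨ r = ⟨i, g * g'⁻¹⟩ := by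
  constructor
  · rintro ⟨j, a, b, h1, h2⟩
    rw [Sym2.eq_iff] at h1
    rcases h1 with ⟨h3, h4⟩ | ⟨h3, h4⟩
    · obtain ⟨rfl, h3⟩ := Sigma.mk.inj h3
      rw [← eq_of_heq h3, ← eq_of_heq (Sigma.mk.inj h4).2] at h2
      exact Or.inl h2
    · obtain ⟨rfl, h3⟩ := Sigma.mk.inj h3
      rw [← eq_of_heq h3, ← eq_of_heq (Sigma.mk.inj h4).2] at h2
      exact Or.inr h2
  · rintro (rfl | rfl)
    · exact ⟨i, g, g', rfl, rfl⟩
    · exact ⟨i, g', g, Sym2.eq_swap, rfl⟩

variable {G H}

/-- For edges `{g, h g}` of the Cayley graph with `h` an involution the colour is `{h}`. -/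
theorem univC_eq (hinv : ∀ i, ∀ h ∈ H i, h * h = 1) {i : I} {g g' : G i}
    (h : (CayleyGraph (H i)).Adj g g') :
    g' * g⁻¹ ∈ H i ∧ univC G s(⟨i, g⟩, ⟨i, g'⟩) = {⟨i, g' * g⁻¹⟩} := by
  obtain ⟨-, x, hx, h1⟩ := h
  have hx' : x⁻¹ = x := by
    rw [inv_eq_iff_mul_eq_one]
    exact hinv i x hx
  have h2 : g' * g⁻¹ = x := by
    rcases h1 with h1 | h1
    · rw [h1, mul_inv_cancel_right]
    · rw [h1, mul_inv_rev, hx', mul_inv_cancel_left]
  have h3 : g * g'⁻¹ = x := by
    rw [← inv_inj, mul_inv_rev, inv_inv, h2, hx']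
  refine ⟨by rw [h2]; exact hx, ?_⟩
  ext r
  rw [mem_univC, h2, h3, or_self]
  rfl

/-- Along a path without edges of the colour `h` one stays in the subgroup generated by the other
generators. -/
theorem closure_of_reachable (hinv : ∀ i, ∀ h ∈ H i, h * h = 1) {i : I} {g g' : G i}
    (h : (CayleyGraph (H i)).Adj g g') {q : Σ i, G i}
    (hr : (others (univG G H) (univC G) s(⟨i, g⟩, ⟨i, g'⟩)).Reachable ⟨i, g⟩ q) :
    ∃ b : G i, q = ⟨i, b⟩ ∧ b * g⁻¹ ∈ Subgroup.closure (H i \ {g' * g⁻¹}) := by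
  rw [SimpleGraph.reachable_iff_reflTransGen] at hr
  induction hr with
  | refl => exact ⟨g, rfl, by rw [mul_inv_cancel]; exact Subgroup.one_mem _⟩
  | tail h1 h2 ih =>
    obtain ⟨b, rfl, hb⟩ := ih
    obtain ⟨⟨j, a, a', h3, h4, h5⟩, h6⟩ := h2
    obtain ⟨rfl, h3⟩ := Sigma.mk.inj h3
    obtain rfl := eq_of_heq h3
    refine ⟨a', h4, ?_⟩
    rw [h4, (univC_eq hinv h5).2, (univC_eq hinv h).2] at h6
    have h7 : a' * b⁻¹ ∈ Subgroup.closure (H i \ {g' * g⁻¹}) := by
      apply Subgroup.subset_closure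
      refine ⟨(univC_eq hinv h5).1, fun h8 => h6 ?_⟩
      rw [show a' * b⁻¹ = g' * g⁻¹ from h8]
    have h9 := Subgroup.mul_mem _ h7 hb
    rwa [mul_assoc, inv_mul_cancel_left] at h9

theorem univ_noLonely (hirr : ∀ i, IsIrreducibleGeneratingSet (H i))
    (hinv : ∀ i, ∀ h ∈ H i, h * h = 1) : NoLonelyColour (univG G H) (univC G) := by
  apply noLonelyColour_of
  rintro p q ⟨i, g, g', rfl, rfl, h⟩ hr
  obtain ⟨b, h1, h2⟩ := closure_of_reachable hinv h hr
  obtain rfl := eq_of_heq (Sigma.mk.inj h1).2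
  apply (hirr i).2 _ (univC_eq hinv h).1
  rw [eq_top_iff, ← (hirr i).1, Subgroup.closure_le]
  intro y hy
  by_cases hyx : y = g' * g⁻¹
  · rw [hyx]; exact h2
  · exact Subgroup.subset_closure ⟨hy, hyx⟩

theorem univ_meets (hinv : ∀ i, ∀ h ∈ H i, h * h = 1) :
    MeetsAtMost (univG G H) (univC G) 1 := by
  intro v k
  rw [Set.encard_le_one_iff]
  rintro w w' ⟨⟨i, g, a, rfl, rfl, h1⟩, h2⟩ ⟨⟨j, g', b, h3, rfl, h4⟩, h5⟩
  obtain ⟨rfl, h3⟩ := Sigma.mk.inj h3
  obtain rfl := eq_of_heq h3
  rw [(univC_eq hinv h1).2] at h2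
  rw [(univC_eq hinv h4).2, ← h2, Set.singleton_eq_singleton_iff] at h5
  have h6 := eq_of_heq (Sigma.mk.inj h5).2
  rw [mul_left_injective _ h6]

/-- The `i`-th Cayley graph is contained in the union. -/
theorem cayley_colorable {n : ℕ} (i : I) {s : Set (Σ i, G i)} (hs : ∀ g, (⟨i, g⟩ : Σ i, G i) ∈ s)
    (h : ((univG G H).induce s).Colorable n) : (CayleyGraph (H i)).Colorable n := by
  obtain ⟨c⟩ := h
  refine ⟨SimpleGraph.Coloring.mk (fun g => c ⟨⟨i, g⟩, hs g⟩) fun {a b} hab => c.valid ?_⟩
  exact ⟨i, a, b, rfl, rfl, hab⟩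

end Universal

/-- A finite graph that is not `m`-colourable has an induced subgraph of chromatic number `m`. -/
theorem exists_induce {V : Type} [Finite V] (X : SimpleGraph V) (m : ℕ)
    (h : ¬ X.Colorable m) : ∃ s : Set V, (X.induce s).chromaticNumber = m := by
  classical
  have hfin : {s : Set V | (X.induce s).Colorable m}.Finite := Set.toFinite _
  have hne : {s : Set V | (X.induce s).Colorable m}.Nonempty :=
    ⟨∅, ⟨SimpleGraph.Coloring.mk (fun x => (x.2 : x.1 ∈ (∅ : Set V)).elim)
      fun {x} _ => (x.2 : x.1 ∈ (∅ : Set V)).elim⟩⟩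
  obtain ⟨s, hs⟩ := hfin.exists_maximal hne
  refine ⟨s, le_antisymm hs.1.chromaticNumber_le ?_⟩
  by_contra hlt
  push Not at hlt
  obtain ⟨k, rfl⟩ : ∃ k, m = k + 1 := by
    cases m with
    | zero => simp at hlt
    | succ k => exact ⟨k, rfl⟩
  have hk : (X.induce s).Colorable k := by
    rw [← SimpleGraph.chromaticNumber_le_iff_colorable]
    have : (X.induce s).chromaticNumber < (k : ℕ∞) + 1 := by exact_mod_cast hlt
    exact Order.lt_add_one_iff_of_not_isMax (by simp) |>.1 this
  obtain ⟨c⟩ := hk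
  have hsne : ∃ v, v ∉ s := by
    by_contra hall
    push Not at hall
    apply h
    obtain ⟨c'⟩ := hs.1
    exact ⟨SimpleGraph.Coloring.mk (fun v => c' ⟨v, hall v⟩) fun {a b} hab => c'.valid hab⟩
  obtain ⟨v, hv⟩ := hsne
  apply hv
  have hins : (X.induce (insert v s)).Colorable (k + 1) := by
    refine ⟨SimpleGraph.Coloring.mk
      (fun x => if hx : x.1 ∈ s then (c ⟨x.1, hx⟩).castSucc else Fin.last k) ?_⟩
    rintro ⟨a, ha⟩ ⟨b, hb⟩ hab
    have hab' : X.Adj a b := hab
    dsimp only
    split_ifs with h1 h2 h2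
    · intro h3
      exact c.valid (show (X.induce s).Adj ⟨a, h1⟩ ⟨b, h2⟩ from hab') (Fin.castSucc_injective _ h3)
    · exact Fin.castSucc_ne_last _
    · exact (Fin.castSucc_ne_last _).symm
    · have e1 : a = v := ha.resolve_right h1
      have e2 : b = v := hb.resolve_right h2
      exact absurd (e1.trans e2.symm) hab'.ne
  exact hs.2 hins (Set.subset_insert v s) (Set.mem_insert v s)

/-- **The no lonely colour graphs have all finite chromatic numbers, and `ℵ₀`.** For every `m` in
`{0, 1, 2, ..., ∞}` there is a graph `X` of chromatic number `m`, finite if `m` is finite and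
countable in any case, and an edge colouring of `X` such that every vertex meets at most one edge of
each colour and in every circuit each edge has the same colour as some other edge of that circuit. So
`X` is a no lonely colour graph and a no pied circuit graph. -/
theorem result : ∀ m : ℕ∞, ∃ (V : Type) (_ : Countable V) (X : SimpleGraph V),
    (m ≠ ⊤ → Finite V) ∧ X.chromaticNumber = m ∧
    (∃ (κ : Type) (c : Sym2 V → κ), MeetsAtMost X c 1 ∧ NoLonelyColour X c) ∧
    IsNoLonelyColourGraph X ∧ IsNoPiedCircuitGraph X := by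
  choose G iG fG H hirr hinv hcol using Pool.Agent.U401.Inv.main
  have hm := univ_meets (G := G) (H := H) hinv
  have hl := univ_noLonely (G := G) (H := H) hirr hinv
  have key : ∀ {V : Type} (X : SimpleGraph V) (κ : Type) (c : Sym2 V → κ),
      MeetsAtMost X c 1 → NoLonelyColour X c → (∃ (κ : Type) (c : Sym2 V → κ), MeetsAtMost X c 1 ∧
      NoLonelyColour X c) ∧ IsNoLonelyColourGraph X ∧ IsNoPiedCircuitGraph X := by
    intro V X κ c h1 h2
    have h3 : MeetsAtMost X c 2 := fun v k => (h1 v k).trans (by norm_num)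
    exact ⟨⟨κ, c, h1, h2⟩, ⟨κ, c, h3, h2⟩, ⟨κ, c, h3, h2.noPied⟩⟩
  intro m
  induction m with
  | top =>
    have : ∀ n, Countable (G n) := fun n => inferInstance
    refine ⟨Σ n, G n, inferInstance, univG G H, fun h => (h rfl).elim, ?_, key _ _ _ hm hl⟩
    by_contra hne
    obtain ⟨n, hn⟩ := SimpleGraph.chromaticNumber_ne_top_iff_exists.1 hne
    apply hcol n
    obtain ⟨c⟩ := hn
    refine ⟨SimpleGraph.Coloring.mk (fun g => c ⟨n, g⟩) fun {a b} hab => c.valid ?_⟩
    exact ⟨n, a, b, rfl, rfl, hab⟩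
  | coe m =>
    let s : Set (Σ n, G n) := {p | p.1 = m}
    have hs : Finite s := by
      apply Finite.of_surjective (fun g : G m => (⟨⟨m, g⟩, rfl⟩ : s))
      rintro ⟨⟨n, g⟩, hn⟩
      obtain rfl : n = m := hn
      exact ⟨g, rfl⟩
    have hnc : ¬ ((univG G H).induce s).Colorable m := fun h =>
      hcol m (cayley_colorable m (fun g => rfl) h)
    obtain ⟨t, ht⟩ := exists_induce _ m hnc
    refine ⟨t, inferInstance, ((univG G H).induce s).induce t, fun _ => inferInstance, ht,
      key _ _ _ ((hm.induce s).induce t) ((hl.induce s).induce t)⟩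

end Pool.Agent.Results.MP_2f2576_co.EveryChromaticNumber
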